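import Pool.Agent.H125d.SAP4

/-! # MP_b6277e_co: every superpattern of `T₂ ⊕ T₂` is spectrally arbitrary -/

namespace Pool.Agent.Results.MP_b6277e_co.AllSuperpatterns

open H125d.SAP

/-- Every superpattern of the sign pattern `T₂ ⊕ T₂` is spectrally arbitrary. -/
theorem result (ℬ : Matrix (Fin 4) (Fin 4) SignType) (hℬ : IsSuperpattern ℬ T) :
    SpectrallyArbitrary ℬ := by
  apply sa_of_E
  intro τ
  by_cases hx : ∃ i j : Fin 2, ℬ (Fin.castAdd 2 i) (Fin.natAdd 2 j) ≠ 0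
  · by_cases hy : ∃ k l : Fin 2, ℬ (Fin.natAdd 2 k) (Fin.castAdd 2 l) ≠ 0
    · obtain ⟨i, j, hx⟩ := hx
      obtain ⟨k, l, hy⟩ := hy
      exact main_case ℬ hℬ i j k l hx hy τ
    · push Not at hy
      exact block_case ℬ hℬ (Or.inr ⟨hy 0 0, hy 0 1, hy 1 0, hy 1 1⟩) τ
  · push Not at hx
    exact block_case ℬ hℬ (Or.inl ⟨hx 0 0, hx 0 1, hx 1 0, hx 1 1⟩) τ

end Pool.Agent.Results.MP_b6277e_co.AllSuperpatterns
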